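import Pool.Agent.Q238.ESN.QR
import Pool.Agent.Q224.ESG.LJG

/-! Project ESN (helper161), job LJG: the local condition for one curve (adapted from
`Pool/Agent/Q224/ESG/LJG.lean`). -/

set_option autoImplicit false

namespace Pool.Agent.Q238.ESN

open NumberField IsDedekindDomain Finset
open Pool.Agent.Q161.ESN
open Pool.Agent.Q51.EL (Abv Par)
open Pool.Agent.Q124.ESM (mem_of_val_lt val_one exp_neg_lt)
open Pool.Agent.Q224.ESG (z2 qr_mul qr_inv qr_unit cne sum_card split_prod)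

theorem fixi {F K : Type} [Field F] [NumberField F] [Field K] [NumberField K] [Algebra F K]
    (φ : K ≃ₐ[F] K) (c : F) : φ (algebraMap F K c) = algebraMap F K c :=
  φ.commutes c

/-- **LJG** -/
theorem ljg : S_LJG := by
  classical
  intro C F K _ _ _ _ _ _ _ L _ _ _ th hD V _ _ _ cd hV
  obtain ⟨B0, hB0, hfr⟩ := Pool.Agent.Q224.ESM.frx K
  refine ⟨B0 * 2, by positivity, ?_⟩
  intro B hB hB0' μ a D D' α α' z z' hz hz' l hl hlB w φ hw hFb t ht ht' c A hA
  have d1 : B0 ∣ B := (Dvd.intro _ rfl).trans hB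
  have d2 : 2 ∣ B := (Dvd.intro_left _ rfl).trans hB
  have hl2 : l ≠ 2 := by
    rintro rfl
    exact hlB d2
  have hsq : Squarefree (Ideal.span {(l : 𝓞 K)}) := (hfr l hl fun h => hlB (h.trans d1)).1
  have hodd : 2 * ((l - 1) / 2) = l - 1 := by
    rcases hl.eq_two_or_odd' with h8 | ⟨n, hn⟩
    · exact absurd h8 hl2
    · omega
  -- the type
  obtain ⟨hlD, htp⟩ := (mem_iff hz.rel hl hlB hw t).1 ht
  obtain ⟨hlD', htp'⟩ := (mem_iff hz'.rel hl hlB hw t).1 ht'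
  have hzs : ∀ {D : 𝓞 F} {α : (c : C) → 𝓞 (L c)} {z : V → 𝓞 K}, RG th cd B μ a D α z →
      z t ∈ w.asIdeal → ∀ s, s ≠ t → z s ∉ w.asIdeal := by
    intro D α z hz ht s hs hm
    have h2 := ((mem_iff hz.rel hl hlB hw t).1 ht).2
    have h3 := ((mem_iff hz.rel hl hlB hw s).1 hm).2
    exact hs (tpg_uniq hV h3 h2)
  obtain ⟨hFt, hY⟩ := gd_odd hz.rel hl hlB hw hFb hlD htp c
  obtain ⟨-, hY'⟩ := gd_odd hz'.rel hl hlB hw hFb hlD' htp' c
  have hQ := hY A hA
  have hQ' := hY' A hA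
  -- the set of the `s`
  let T : Finset V := univ.filter (fun s => ∑ ι ∈ A, cd (s - t) c ι ≠ 0)
  have hT : ∀ s ∈ T, s ≠ t := by
    rintro s hs rfl
    have h1 := (mem_filter.1 hs).2
    apply h1
    rw [sub_self, map_zero]
    simp
  have hPu : ∀ {D : 𝓞 F} {α : (c : C) → 𝓞 (L c)} {z : V → 𝓞 K}, RG th cd B μ a D α z →
      z t ∈ w.asIdeal → w.valuation K (∏ s ∈ T, (z s : K)) = 1 := by
    intro D α z hz ht
    rw [map_prod]
    exact prod_eq_one fun s hs => val_one (hzs hz ht s (hT s hs))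
  have hPP : w.valuation K ((∏ s ∈ T, (z s : K)) * ∏ s ∈ T, (z' s : K)) = 1 := by
    rw [map_mul, hPu hz ht, hPu hz' ht', one_mul]
  have hcast : ((∏ s ∈ T, z s * z' s : 𝓞 K) : K) =
      (∏ s ∈ T, (z s : K)) * ∏ s ∈ T, (z' s : K) := by
    change algebraMap (𝓞 K) K _ = _
    rw [map_prod, ← prod_mul_distrib]
    refine prod_congr rfl fun s _ => ?_
    rw [map_mul]
  suffices hQR : QR w l ((∏ s ∈ T, (z s : K)) * ∏ s ∈ T, (z' s : K)) by
    have h1 := qr_unit hl hl2 hsq hw hQR hPP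
    rw [← hcast] at h1
    rw [← mem_of_val_lt]
    have h2 : (((∏ s ∈ T, z s * z' s) ^ ((l - 1) / 2) - 1 : 𝓞 K) : K) =
        ((∏ s ∈ T, z s * z' s : 𝓞 K) : K) ^ ((l - 1) / 2) - 1 := by
      change algebraMap (𝓞 K) K _ = _
      rw [map_sub, map_pow, map_one]
    change w.valuation K (((∏ s ∈ T, z s * z' s) ^ ((l - 1) / 2) - 1 : 𝓞 K) : K) < 1
    rw [h2]
    exact h1
  -- the parts
  let ph : V → ZMod 2 := fun s => ∑ ι ∈ A, cd s c ι
  let nn : V → ℕ := fun s => (A.filter (fun ι => cd s c ι = 1)).card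
  have hph : ∀ s, ph s = (nn s : ZMod 2) := fun s => sum_card A (cd s c)
  let Rr : (V → 𝓞 K) → K := fun z => ∏ s, (z s : K) ^ (nn s / 2)
  let P0 : (V → 𝓞 K) → K := fun z => ∏ s ∈ univ.filter (fun s => ph s ≠ 0), (z s : K)
  let Aa : (𝓞 (L c)) → K := fun x => ∏ ι ∈ A, ι (x : L c)
  let Lp : L c → K := fun x => ∏ ι ∈ A, ι x
  have hLp : ∀ x, φ (Lp x) = Lp x := fun x => prod_fixA hA (u := fun ι => ι x) fun ι => rfl
  have hLp0 : ∀ x : L c, x ≠ 0 → Lp x ≠ 0 := fun x hx =>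
    prod_ne_zero_iff.2 fun ι _ => (map_ne_zero ι).2 hx
  let Uu : K := ∏ ι ∈ A, uu (th c) (cd t c) ι
  have hUu : φ Uu = Uu := prod_fixA hA (u := fun ι => uu (th c) (cd t c) ι)
    (uu_fix hFt)
  have hUu0 : Uu ≠ 0 := prod_ne_zero_iff.2 fun ι _ => uu_ne (hD c) _ _
  -- invariance of `Rr`
  have hnn : ∀ s, nn (φ • s) = nn s := by
    intro s
    refine (card_bij' (fun ι _ => cp φ ι) (fun ι _ => (cpe φ).symm ι) ?_ ?_ ?_ ?_).symm
    · intro ι hι
      rw [mem_filter] at hι ⊢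
      exact ⟨(hA ι).1 hι.1, by rw [hV.eqv]; exact hι.2⟩
    · intro ι hι
      obtain ⟨ι', rfl⟩ := (cpe φ).surjective ι
      rw [Equiv.symm_apply_apply]
      rw [cpe_apply, mem_filter, hV.eqv] at hι
      rw [mem_filter]
      exact ⟨(hA ι').2 hι.1, hι.2⟩
    · intro ι _
      exact (cpe φ).symm_apply_apply ι
    · intro ι _
      exact (cpe φ).apply_symm_apply ι
  have hRr : ∀ {D : 𝓞 F} {α : (c : C) → 𝓞 (L c)} {z : V → 𝓞 K}, RG th cd B μ a D α z →
      φ (Rr z) = Rr z ∧ Rr z ≠ 0 := by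
    intro D α z hz
    constructor
    · change φ (∏ s, (z s : K) ^ (nn s / 2)) = ∏ s, (z s : K) ^ (nn s / 2)
      rw [map_prod, ← Equiv.prod_comp (MulAction.toPerm φ) (fun s => (z s : K) ^ (nn s / 2))]
      refine prod_congr rfl fun s _ => ?_
      rw [MulAction.toPerm_apply, hnn, map_pow, hz.rel.eqv φ s]
    · exact prod_ne_zero_iff.2 fun s _ => pow_ne_zero _ (cne (hz.rel.ne s))
  -- the identity `qa`
  have hqa : ∀ {D : 𝓞 F} {α : (c : C) → 𝓞 (L c)} {z : V → 𝓞 K}, RG th cd B μ a D α z →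
      ∃ q : L c, q ≠ 0 ∧ Lp (α c : L c) * (P0 z * Rr z ^ 2) = Lp (a c) * Lp q ^ 2 := by
    intro D α z hz
    obtain ⟨q, hq0, hq⟩ := hz.qa c
    refine ⟨q, hq0, ?_⟩
    change (∏ ι ∈ A, ι (α c : L c)) * ((∏ s ∈ univ.filter (fun s => ∑ ι ∈ A, cd s c ι ≠ 0),
      (z s : K)) * (∏ s, (z s : K) ^ ((A.filter (fun ι => cd s c ι = 1)).card / 2)) ^ 2) =
      (∏ ι ∈ A, ι (a c)) * (∏ ι ∈ A, ι q) ^ 2
    rw [← split_prod A (fun s ι => cd s c ι) (fun s => (z s : K)), ← prod_mul_distrib,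
      ← prod_pow, ← prod_mul_distrib]
    exact prod_congr rfl fun ι _ => hq ι
  have hYv : ∀ {D : 𝓞 F} {α : (c : C) → 𝓞 (L c)}, ∏ ι ∈ A, ι (α c : L c) *
      (if cd t c ι = 1 then (algebraMap F K (D : F)) else 1) * uu (th c) (cd t c) ι =
      Lp (α c : L c) * (algebraMap F K (D : F)) ^ nn t * Uu := by
    intro D α
    rw [prod_mul_distrib, prod_mul_distrib]
    congr 2
    rw [← prod_filter, prod_const]
  rw [hYv] at hQ hQ'
  obtain ⟨q, hq0, e1⟩ := hqa hz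
  obtain ⟨q', hq0', e1'⟩ := hqa hz'
  obtain ⟨r1, r2⟩ := hRr hz
  obtain ⟨r1', r2'⟩ := hRr hz'
  have hD0 : algebraMap F K (D : F) ≠ 0 :=
    (_root_.map_ne_zero _).2 (cne hz.rel.sq.1)
  have hD0' : algebraMap F K (D' : F) ≠ 0 :=
    (_root_.map_ne_zero _).2 (cne hz'.rel.sq.1)
  have hα0 : Lp (α c : L c) ≠ 0 := hLp0 _ (cne (hz.rel.a0 c))
  have hα0' : Lp (α' c : L c) ≠ 0 := hLp0 _ (cne (hz'.rel.a0 c))
  have hP0 : ∀ {D : 𝓞 F} {α : (c : C) → 𝓞 (L c)} {z : V → 𝓞 K}, RG th cd B μ a D α z →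
      P0 z ≠ 0 := fun hz => prod_ne_zero_iff.2 fun s _ => cne (hz.rel.ne s)
  have ha0 : Lp (a c) ≠ 0 := by
    intro h
    rw [h, zero_mul] at e1
    exact mul_ne_zero hα0 (mul_ne_zero (hP0 hz) (pow_ne_zero 2 r2)) e1
  have hG := qr_mul hl hQ hQ'
  have hG0 : Lp (α c : L c) * (algebraMap F K (D : F)) ^ nn t * Uu *
      (Lp (α' c : L c) * (algebraMap F K (D' : F)) ^ nn t * Uu) ≠ 0 :=
    mul_ne_zero (mul_ne_zero (mul_ne_zero hα0 (pow_ne_zero _ hD0)) hUu0)
      (mul_ne_zero (mul_ne_zero hα0' (pow_ne_zero _ hD0')) hUu0)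
  rcases Nat.even_or_odd' (nn t) with ⟨n, hn | hn⟩
  · -- even
    have hTP : T = univ.filter (fun s => ph s ≠ 0) := by
      ext s
      rw [mem_filter, mem_filter]
      have h1 : ∑ ι ∈ A, cd (s - t) c ι = ph s - ph t := by
        rw [map_sub]
        exact sum_sub_distrib _ _
      have h2 : ph t = 0 := by
        rw [hph, hn]
        push_cast
        rw [show (2 : ZMod 2) = 0 by decide, zero_mul]
      rw [h1, h2, sub_zero]
    rw [hTP]
    change QR w l (P0 z * P0 z')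
    refine qr_of hl hl2 hsq hw hFb hG hG0 (X1 := Rr z * Rr z')
      (X2 := Lp (a c) * Lp q * Lp q' *
        ((algebraMap F K (D : F)) * (algebraMap F K (D' : F))) ^ n * Uu) (by rw [map_mul, r1, r1'])
      (mul_ne_zero r2 r2') ?_ ?_ ?_
    · rw [map_mul, map_mul, map_mul, map_mul, map_pow, map_mul, fixi φ (D : F), fixi φ (D' : F), hLp, hLp, hLp,
        hUu]
    · exact mul_ne_zero (mul_ne_zero (mul_ne_zero (mul_ne_zero ha0 (hLp0 _ hq0)) (hLp0 _ hq0'))
        (pow_ne_zero _ (mul_ne_zero hD0 hD0'))) hUu0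
    · rw [hn]
      calc _ = (Lp (α c : L c) * (P0 z * Rr z ^ 2)) * (Lp (α' c : L c) * (P0 z' * Rr z' ^ 2)) *
          (algebraMap F K (D : F)) ^ (2 * n) * (algebraMap F K (D' : F)) ^ (2 * n) * Uu ^ 2 := by ring
        _ = _ := by rw [e1, e1']; ring
  · -- odd
    have hTP : ∀ z : V → 𝓞 K, (∏ s ∈ T, (z s : K)) * P0 z = ∏ s, (z s : K) := by
      intro z
      have h0 : T = univ.filter (fun s => ¬ ph s ≠ 0) := by
        ext s
        rw [mem_filter, mem_filter]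
        have h1 : ∑ ι ∈ A, cd (s - t) c ι = ph s - ph t := by
          rw [map_sub]
          exact sum_sub_distrib _ _
        have h2 : ph t = 1 := by
          rw [hph, hn]
          push_cast
          rw [show (2 : ZMod 2) = 0 by decide, zero_mul, zero_add]
        rw [h1, h2]
        generalize ph s = x
        have h3 : x - 1 ≠ 0 ↔ ¬ x ≠ 0 := by revert x; decide
        rw [h3]
      rw [h0, mul_comm]
      exact prod_filter_mul_prod_filter_not univ (fun s => ph s ≠ 0) (fun s => (z s : K))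
    have hqd : ∀ {D : 𝓞 F} {α : (c : C) → 𝓞 (L c)} {z : V → 𝓞 K}, RG th cd B μ a D α z →
        ∃ s : F, s ≠ 0 ∧ (algebraMap F K (D : F)) * ((∏ s ∈ T, (z s : K)) * P0 z) =
          (algebraMap F K μ) * (algebraMap F K s) ^ 2 := by
      intro D α z hz
      obtain ⟨s, hs0, hs⟩ := hz.qd
      refine ⟨s, hs0, ?_⟩
      rw [hTP, hs, map_mul, map_pow]
    obtain ⟨s, hs0, e2⟩ := hqd hz
    obtain ⟨s', hs0', e2'⟩ := hqd hz'
    have hTn : ∀ {D : 𝓞 F} {α : (c : C) → 𝓞 (L c)} {z : V → 𝓞 K}, RG th cd B μ a D α z →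
        ∏ s ∈ T, (z s : K) ≠ 0 := fun hz => prod_ne_zero_iff.2 fun s _ => cne (hz.rel.ne s)
    have hμ : (algebraMap F K μ) ≠ 0 := by
      intro h
      rw [h, zero_mul] at e2
      exact mul_ne_zero hD0 (mul_ne_zero (hTn hz) (hP0 hz)) e2
    have hsK : (algebraMap F K s) ≠ 0 := (_root_.map_ne_zero _).2 hs0
    have hsK' : (algebraMap F K s') ≠ 0 := (_root_.map_ne_zero _).2 hs0'
    refine qr_of hl hl2 hsq hw hFb (qr_inv hG) (inv_ne_zero hG0)
      (X1 := Lp (a c) * Lp q * Lp q' *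
        ((algebraMap F K (D : F)) * (algebraMap F K (D' : F))) ^ (n + 1) * Uu)
      (X2 := (algebraMap F K μ) * algebraMap F K s * algebraMap F K s' * (Rr z * Rr z'))
      ?_ ?_ ?_ ?_ ?_
    · rw [map_mul, map_mul, map_mul, map_mul, map_pow, map_mul, fixi φ (D : F), fixi φ (D' : F), hLp, hLp, hLp,
        hUu]
    · exact mul_ne_zero (mul_ne_zero (mul_ne_zero (mul_ne_zero ha0 (hLp0 _ hq0)) (hLp0 _ hq0'))
        (pow_ne_zero _ (mul_ne_zero hD0 hD0'))) hUu0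
    · rw [map_mul, map_mul, map_mul, map_mul, fixi φ μ, fixi φ s, fixi φ s', r1, r1']
    · exact mul_ne_zero (mul_ne_zero (mul_ne_zero hμ hsK) hsK') (mul_ne_zero r2 r2')
    · rw [mul_assoc, mul_comm _⁻¹, ← mul_assoc, ← div_eq_mul_inv, div_eq_iff hG0, hn]
      generalize (∏ s ∈ T, (z s : K)) = P at *
      generalize (∏ s ∈ T, (z' s : K)) = P' at *
      have h1 : P * P' * (Lp (a c) * Lp q * Lp q') ^ 2 *
          ((algebraMap F K (D : F)) * (algebraMap F K (D' : F))) =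
          ((algebraMap F K (D : F)) * (P * P0 z)) * ((algebraMap F K (D' : F)) * (P' * P0 z')) *
            (Lp (α c : L c) * Lp (α' c : L c)) * (Rr z * Rr z') ^ 2 := by
        calc _ = P * P' * ((algebraMap F K (D : F)) * (algebraMap F K (D' : F))) *
              (Lp (a c) * Lp q ^ 2) * (Lp (a c) * Lp q' ^ 2) := by
              ring
          _ = _ := by rw [← e1, ← e1']; ring
      rw [e2, e2'] at h1
      calc _ = (P * P' * (Lp (a c) * Lp q * Lp q') ^ 2 *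
          ((algebraMap F K (D : F)) * (algebraMap F K (D' : F)))) *
          ((algebraMap F K (D : F)) * (algebraMap F K (D' : F))) ^ (2 * n + 1) * Uu ^ 2 := by ring
        _ = _ := by rw [h1]; ring

end Pool.Agent.Q238.ESN
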