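import Pool.Agent.Q161.ESN.Stm3
import Pool.Agent.Q224.ESG.QR

/-! Project ESN (helper161): tools for the jobs LJG, LOCG, CNTG (adapted from `Pool/Agent/Q224/ESG/QR.lean`). -/

set_option autoImplicit false

namespace Pool.Agent.Q238.ESN

open Polynomial NumberField IsDedekindDomain Finset
open Pool.Agent.Q161.ESN
open Pool.Agent.Q51.EL (Abv Par)
open Pool.Agent.Q124.ESM (mem_of_val_lt val_one exp_neg_lt)
open Pool.Agent.Q237.ESM (val_l)
open Pool.Agent.Q224.ESG (z2 qr_mul qr_inv qr_unit one_ne_exp par_iff)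

section

variable {F K : Type} [Field F] [NumberField F] [Field K] [NumberField K] [Algebra F K]
  {w : HeightOneSpectrum (𝓞 K)} {l : ℕ}

theorem fix_pow (hl : l.Prime) {φ : K ≃ₐ[F] K} (hF : Fb w l φ) {y : K} (h1 : φ y = y)
    (h2 : w.valuation K y = 1) : w.valuation K (y ^ (l - 1) - 1) < 1 := by
  obtain ⟨a, ⟨b, hb⟩, hab⟩ := w.exists_primeCompl_mul_eq_of_integer (K := K) y h2.le
  change y * (b : K) = (a : K) at hab
  have hb' : b ∉ w.asIdeal := hb
  have hprime : w.asIdeal.IsPrime := w.isPrime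
  let ψ : 𝓞 K →+* 𝓞 K := RingOfIntegers.mapRingHom (φ : K →+* K)
  have hφ : ∀ u : 𝓞 K, (ψ u : K) = φ (u : K) := fun u => rfl
  have h5 : ψ a * b = a * ψ b := by
    apply RingOfIntegers.coe_injective
    rw [map_mul, map_mul]
    change (ψ a : K) * (b : K) = (a : K) * (ψ b : K)
    rw [hφ, hφ, ← hab, map_mul, h1]
    ring
  let q : 𝓞 K →+* (𝓞 K ⧸ w.asIdeal) := Ideal.Quotient.mk w.asIdeal
  have hq : ∀ u : 𝓞 K, q u = 0 ↔ u ∈ w.asIdeal := fun u => Ideal.Quotient.eq_zero_iff_mem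
  have ha' : a ∉ w.asIdeal := by
    intro ha
    have h4 := (mem_of_val_lt a).2 ha
    rw [← hab, map_mul, h2, val_one hb', one_mul] at h4
    exact lt_irrefl _ h4
  have hfr : ∀ u : 𝓞 K, q (ψ u) = q u ^ l := by
    intro u
    have h6 := hF u (ψ u) (hφ u)
    rwa [← hq, map_sub, map_pow, sub_eq_zero] at h6
  have hqa : q a ≠ 0 := fun h6 => ha' ((hq a).1 h6)
  have hqb : q b ≠ 0 := fun h6 => hb' ((hq b).1 h6)
  have hl1 : l = (l - 1) + 1 := (Nat.succ_pred_eq_of_pos hl.pos).symm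
  have h6 : q a ^ (l - 1) = q b ^ (l - 1) := by
    have h7 := congrArg q h5
    rw [map_mul, map_mul, hfr, hfr] at h7
    have h8 : q a ^ l = q a ^ (l - 1) * q a := by
      conv_lhs => rw [hl1]
      exact pow_succ _ _
    have h9 : q b ^ l = q b ^ (l - 1) * q b := by
      conv_lhs => rw [hl1]
      exact pow_succ _ _
    rw [h8, h9] at h7
    apply mul_right_cancel₀ (mul_ne_zero hqa hqb)
    calc q a ^ (l - 1) * (q a * q b) = q a ^ (l - 1) * q a * q b := by ring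
      _ = q a * (q b ^ (l - 1) * q b) := h7
      _ = q b ^ (l - 1) * (q a * q b) := by ring
  have h7 : a ^ (l - 1) - b ^ (l - 1) ∈ w.asIdeal := by
    rw [← hq, map_sub, map_pow, map_pow, h6, sub_self]
  have h8 := (mem_of_val_lt _).2 h7
  have h9 : ((a ^ (l - 1) - b ^ (l - 1) : 𝓞 K) : K) = (y ^ (l - 1) - 1) * (b : K) ^ (l - 1) := by
    change algebraMap (𝓞 K) K (a ^ (l - 1) - b ^ (l - 1)) = _
    rw [map_sub, map_pow, map_pow]
    change (a : K) ^ (l - 1) - (b : K) ^ (l - 1) = _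
    rw [← hab]
    ring
  rw [h9, map_mul, map_pow, val_one hb', one_pow, mul_one] at h8
  exact h8

theorem qr_sq (hl : l.Prime) (hl2 : l ≠ 2) (hsq : Squarefree (Ideal.span {(l : 𝓞 K)}))
    (hw : Abv w l) {φ : K ≃ₐ[F] K} (hF : Fb w l φ) {x : K} (hx : φ x = x) (hx0 : x ≠ 0) :
    QR w l (x ^ 2) := by
  have hv0 : w.valuation K x ≠ 0 := (Valuation.ne_zero_iff _).2 hx0
  refine ⟨WithZero.log (w.valuation K x), ?_⟩
  set n := WithZero.log (w.valuation K x) with hn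
  have h1 : w.valuation K (x * (l : K) ^ n) = 1 := by
    rw [map_mul, map_zpow₀, val_l hl hsq hw, ← WithZero.exp_zsmul, ← WithZero.exp_log hv0, ← hn,
      ← WithZero.exp_add, ← WithZero.exp_zero]
    congr 1
    simp
  have h2 := fix_pow hl hF (y := x * (l : K) ^ n) (by rw [map_mul, map_zpow₀, hx, map_natCast]) h1
  have hodd : 2 * ((l - 1) / 2) = l - 1 := by
    rcases hl.eq_two_or_odd' with h8 | ⟨n, hn⟩
    · exact absurd h8 hl2
    · omega
  have e : (x ^ 2 * (l : K) ^ (2 * n)) ^ ((l - 1) / 2) = (x * (l : K) ^ n) ^ (l - 1) := by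
    rw [← hodd, pow_mul]
    congr 1
    · rw [mul_pow, ← zpow_natCast ((l : K) ^ n), ← zpow_mul, mul_comm n]
      rfl
    · omega
  rw [e]
  exact h2

/-- transfer -/
theorem qr_of (hl : l.Prime) (hl2 : l ≠ 2) (hsq : Squarefree (Ideal.span {(l : 𝓞 K)}))
    (hw : Abv w l) {φ : K ≃ₐ[F] K} (hF : Fb w l φ) {G H X1 X2 : K} (hG : QR w l G) (hG0 : G ≠ 0)
    (h1 : φ X1 = X1) (h10 : X1 ≠ 0) (h2 : φ X2 = X2) (h20 : X2 ≠ 0)
    (e : H * G * X1 ^ 2 = X2 ^ 2) : QR w l H := by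
  have h3 : H = (X2 * X1⁻¹) ^ 2 * G⁻¹ := by
    field_simp
    linear_combination e
  rw [h3]
  refine qr_mul hl (qr_sq hl hl2 hsq hw hF ?_ (mul_ne_zero h20 (inv_ne_zero h10))) (qr_inv hG)
  rw [map_mul, map_inv₀, h1, h2]

end

section

variable {F K L : Type} [Field F] [NumberField F] [Field K] [NumberField K] [Algebra F K] [Field L]
  [NumberField L] [Algebra F L]

theorem cp_apply (g : K ≃ₐ[F] K) (ι : L →ₐ[F] K) (x : L) : cp g ι x = g (ι x) := rfl

/-- `cp g` as a bijection -/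
def cpe (g : K ≃ₐ[F] K) : (L →ₐ[F] K) ≃ (L →ₐ[F] K) where
  toFun := cp g
  invFun := cp g⁻¹
  left_inv ι := by
    ext x
    rw [cp_apply, cp_apply]
    exact g.symm_apply_apply _
  right_inv ι := by
    ext x
    rw [cp_apply, cp_apply]
    exact g.apply_symm_apply _

theorem cpe_apply (g : K ≃ₐ[F] K) (ι : L →ₐ[F] K) : cpe g ι = cp g ι := rfl

/-- the product over a stable set is fixed -/
theorem prod_fixA {φ : K ≃ₐ[F] K} {A : Finset (L →ₐ[F] K)} (hA : ∀ ι, ι ∈ A ↔ cp φ ι ∈ A)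
    {u : (L →ₐ[F] K) → K} (hu : ∀ ι, φ (u ι) = u (cp φ ι)) : φ (∏ ι ∈ A, u ι) = ∏ ι ∈ A, u ι := by
  rw [map_prod, Finset.prod_congr rfl fun ι _ => hu ι]
  refine Finset.prod_bij' (fun ι _ => cp φ ι) (fun ι _ => (cpe φ).symm ι) ?_ ?_ ?_ ?_ ?_
  · intro ι hι
    exact (hA ι).1 hι
  · intro ι hι
    rw [hA, ← cpe_apply, Equiv.apply_symm_apply]
    exact hι
  · intro ι _
    exact (cpe φ).symm_apply_apply ι
  · intro ι _
    exact (cpe φ).apply_symm_apply ι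
  · intro ι _
    rfl

variable {th : 𝓞 L}

theorem uu_fix {φ : K ≃ₐ[F] K} {e : (L →ₐ[F] K) → ZMod 2} (he : ∀ ι, e (cp φ ι) = e ι)
    (ι : L →ₐ[F] K) : φ (uu th e ι) = uu th e (cp φ ι) := by
  classical
  have main : ∀ i : ZMod 2, ∏ ι' ∈ univ.filter (fun ι' : L →ₐ[F] K => e ι' = i),
      φ (ι (th : L) - ι' (th : L)) = ∏ ι' ∈ univ.filter (fun ι' : L →ₐ[F] K => e ι' = i),
        (cp φ ι (th : L) - ι' (th : L)) := by
    intro i
    refine Finset.prod_bij' (fun ι _ => cp φ ι) (fun ι _ => (cpe φ).symm ι) ?_ ?_ ?_ ?_ ?_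
    · intro ι' hι'
      rw [mem_filter] at hι' ⊢
      exact ⟨mem_univ _, by rw [he]; exact hι'.2⟩
    · intro ι' hι'
      obtain ⟨ι'', rfl⟩ := (cpe φ).surjective ι'
      rw [Equiv.symm_apply_apply]
      rw [cpe_apply] at hι'
      rw [mem_filter] at hι' ⊢
      exact ⟨mem_univ _, by rw [← he]; exact hι'.2⟩
    · intro ι _
      exact (cpe φ).symm_apply_apply ι
    · intro ι _
      exact (cpe φ).apply_symm_apply ι
    · intro ι' _
      rw [map_sub]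
      rfl
  unfold uu
  rw [he]
  split_ifs with h
  · rw [map_prod, ← main]
  · rw [map_neg, map_prod, ← main]

theorem uu_ne (hD : Dat F K th) (e : (L →ₐ[F] K) → ZMod 2) (ι : L →ₐ[F] K) :
    uu th e ι ≠ 0 := by
  classical
  unfold uu
  split_ifs with h
  · refine Finset.prod_ne_zero_iff.2 fun ι' hι' h1 => ?_
    have h2 := (mem_filter.1 hι').2
    have h3 := hD.sep ι ι' (sub_eq_zero.1 h1)
    rw [← h3, h] at h2
    exact zero_ne_one h2
  · refine neg_ne_zero.2 (Finset.prod_ne_zero_iff.2 fun ι' hι' h1 => ?_)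
    have h2 := (mem_filter.1 hι').2
    have h3 := hD.sep ι ι' (sub_eq_zero.1 h1)
    rw [← h3] at h2
    exact h h2

end

section C

variable {C F K : Type} [Field F] [NumberField F] [Field K] [NumberField K] [Algebra F K]
  {L : C → Type} [∀ c, Field (L c)] [∀ c, NumberField (L c)] [∀ c, Algebra F (L c)]
  {V : Type} [AddCommGroup V] [DistribMulAction (K ≃ₐ[F] K) V] {th : (c : C) → 𝓞 (L c)}
  {cd : V →+ ((c : C) → (L c →ₐ[F] K) → ZMod 2)} {B : ℕ} {D : 𝓞 F} {α : (c : C) → 𝓞 (L c)}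
  {z : V → 𝓞 K}

theorem tpg_uniq (hV : VB cd) {w : HeightOneSpectrum (𝓞 K)} {s t : V} (hs : TpG cd α w s)
    (ht : TpG cd α w t) : s = t := by
  apply hV.inj
  ext c ι
  rcases z2 (cd s c ι) with h1 | h1 <;> rcases z2 (cd t c ι) with h2 | h2
  · rw [h1, h2]
  · exact absurd (((hs c ι).1 h1).symm.trans ((ht c ι).2 h2)) one_ne_exp
  · exact absurd (((ht c ι).1 h2).symm.trans ((hs c ι).2 h1)) one_ne_exp
  · rw [h1, h2]

theorem mem_iff (h : RG0 th cd B D α z) {l : ℕ} (hl : l.Prime) (hB : ¬ l ∣ B)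
    {w : HeightOneSpectrum (𝓞 K)} (hw : Abv w l) (t : V) :
    z t ∈ w.asIdeal ↔ iO F K D ∈ w.asIdeal ∧ TpG cd α w t := by
  rw [← mem_of_val_lt]
  by_cases h1 : iO F K D ∈ w.asIdeal ∧ TpG cd α w t
  · rw [(h.typ l hl hB w hw t).1 h1]
    exact ⟨fun _ => h1, fun _ => exp_neg_lt⟩
  · rw [(h.typ l hl hB w hw t).2 h1]
    exact ⟨fun h' => absurd h' (lt_irrefl _), fun h' => absurd h' h1⟩

/-- the local condition, in terms of the type -/
theorem gd_odd (hR : RG0 th cd B D α z) {l : ℕ} (hl : l.Prime) (hB : ¬ l ∣ B)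
    {w : HeightOneSpectrum (𝓞 K)} (hw : Abv w l) {φ : K ≃ₐ[F] K} (hF : Fb w l φ)
    (hD : iO F K D ∈ w.asIdeal) {t : V} (ht : TpG cd α w t) (c : C) :
    (∀ ι, cd t c (cp φ ι) = cd t c ι) ∧ ∀ A : Finset (L c →ₐ[F] K), (∀ ι, ι ∈ A ↔ cp φ ι ∈ A) →
      QR w l (∏ ι ∈ A, ι (α c : L c) * (if cd t c ι = 1 then algebraMap F K (D : F) else 1) *
        uu (th c) (cd t c) ι) := by
  obtain ⟨e, -, h3, h4⟩ := (hR.gd c).odd l hl hB w hw hD
  have he : e = cd t c := by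
    ext ι
    exact par_iff (ht c ι).1 (ht c ι).2 (h3 ι).1 (h3 ι).2
  rw [← he]
  exact h4 φ hF

end C

end Pool.Agent.Q238.ESN
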